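import Pool.Agent.H107Z.CutMain

set_option autoImplicit false

open MeasureTheory

namespace Pool.Agent.Results.MP_ced1be_co.AllK

/-- For every integer `k ≥ 3` the pair `(1/k, 1/k)` is not good in the plane: it is false that for
any two measurable planar sets of finite area some open disc or open half-plane contains exactly
the fraction `1/k` of the area of each. -/
theorem result : ∀ k : ℕ, 3 ≤ k →
    ¬ (∀ A₁ A₂ : Set (EuclideanSpace ℝ (Fin 2)),
      MeasurableSet A₁ → MeasurableSet A₂ →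
      volume A₁ < ⊤ → volume A₂ < ⊤ →
      ∃ S : Set (EuclideanSpace ℝ (Fin 2)),
        ((∃ (p : EuclideanSpace ℝ (Fin 2)) (r : ℝ), 0 < r ∧ S = Metric.ball p r) ∨
         (∃ (v : EuclideanSpace ℝ (Fin 2)) (c : ℝ), v ≠ 0 ∧
            S = {x : EuclideanSpace ℝ (Fin 2) | inner ℝ v x < c})) ∧
        volume (A₁ ∩ S) = volume A₁ / k ∧
        volume (A₂ ∩ S) = volume A₂ / k) := by
  intro k hk H
  obtain ⟨A₁, A₂, m1, m2, f1, f2, hno⟩ := Pool.Agent.H107Z.Cut.not_good k hk
  obtain ⟨S, hS, h1, h2⟩ := H A₁ A₂ m1 m2 f1 f2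
  rcases hS with ⟨p, r, hr, rfl⟩ | ⟨v, c, _, rfl⟩
  · rw [Pool.Agent.Helper477.Circle.ball_eq p hr] at h1 h2
    exact hno _ _ _ zero_le_one h1 h2
  · rw [Pool.Agent.Helper477.Circle.half_eq v c] at h1 h2
    exact hno _ _ _ le_rfl h1 h2

end Pool.Agent.Results.MP_ced1be_co.AllK
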